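import Pool.Agent.Helper65.CG.Defs2

/-! Class values (module V1 of the upper bound). -/

set_option autoImplicit false

namespace Pool.Agent.Helper65.CG

open scoped Classical
open Pool.Agent.Helper65.CliqueGame

variable {n q m : ℕ}

theorem clu_det {ℓ : Sym2 (Fin n) → ℕ} {vt : ℕ → Fin (2 * m) → Fin n} {Z Z' : Fin q → Fin n}
    {D : Clu q m} {d b : ℕ} (h : CluOK ℓ vt Z D d b) (h' : CluOK ℓ vt Z' D d b)
    (hS : ∀ i ∈ D.S, Z i = Z' i) {i k : Fin q} (hi : i ∈ D.G) (hk : k ∈ D.G)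
    (hik : D.cls i = D.cls k) (hZ : Z i = Z' i) : Z k = Z' k := by
  have hc := h.conn i hi k hk hik
  clear hik hk
  induction hc with
  | refl => exact hZ
  | tail _ hstep ih =>
    obtain ⟨y, hy⟩ := hstep
    have h1 := h.det _ hy
    have h2 := h'.det _ hy
    obtain ⟨hs, h1⟩ := h1
    obtain ⟨_, h2⟩ := h2
    dsimp only at hs h1 h2
    rw [h1, h2]
    unfold lk
    rw [ih, hS _ hs]

theorem cv_card {Z : Fin q → Fin n} (hZ : Function.Injective Z) (D : Clu q m) (P : Fin q) :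
    (D.cv Z P).card = (D.mem P).card := by
  unfold Clu.cv
  exact Finset.card_image_of_injective _ hZ

theorem clsaux_mem {D : Clu q m} {P i : Fin q} (hi : i ∈ D.mem P) : i ∈ D.G ∧ D.cls i = P := by
  have := hi
  unfold Clu.mem at this
  exact Finset.mem_filter.mp this

theorem clsaux_det {ℓ : Sym2 (Fin n) → ℕ} {vt : ℕ → Fin (2 * m) → Fin n} {Z Z' : Fin q → Fin n}
    {D : Clu q m} {d b : ℕ} (h : CluOK ℓ vt Z D d b) (h' : CluOK ℓ vt Z' D d b)
    (hS : ∀ i ∈ D.S, Z i = Z' i) {P i : Fin q} (hi : i ∈ D.mem P) (hZ : Z i = Z' i) :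
    D.cv Z P = D.cv Z' P := by
  unfold Clu.cv
  refine Finset.image_congr (fun k hk => ?_)
  have hk' : k ∈ D.mem P := hk
  have h1 := clsaux_mem hi
  have h2 := clsaux_mem hk'
  exact clu_det h h' hS h1.1 h2.1 (h1.2.trans h2.2.symm) hZ

theorem V_le_supp {ℓ : Sym2 (Fin n) → ℕ} {vt : ℕ → Fin (2 * m) → Fin n} {D : Clu q m} {d b : ℕ}
    {A : Finset (Fin q → Fin n)} (hA : ∀ Z ∈ A, CluOK ℓ vt Z D d b)
    (hS : ∀ Z ∈ A, ∀ Z' ∈ A, ∀ i ∈ D.S, Z i = Z' i) {P i : Fin q} (hi : i ∈ D.mem P) :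
    (A.image (fun Z => D.cv Z P)).card ≤ (supp A i).card := by
  -- choose for every value of slot `i` a tuple
  have hch : ∀ x : Fin n, ∃ v : Finset (Fin n), ∀ Z ∈ A, Z i = x → D.cv Z P = v := by
    intro x
    by_cases hx : ∃ Z ∈ A, Z i = x
    · obtain ⟨Z, hZ, hZx⟩ := hx
      exact ⟨D.cv Z P, fun Z' hZ' hx' =>
        clsaux_det (hA Z' hZ') (hA Z hZ) (hS Z' hZ' Z hZ) hi (hx'.trans hZx.symm)⟩
    · exact ⟨∅, fun Z hZ hZx => absurd ⟨Z, hZ, hZx⟩ hx⟩
  choose f hf using hch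
  have hsub : A.image (fun Z => D.cv Z P) ⊆ (supp A i).image f := by
    intro v hv
    obtain ⟨Z, hZ, rfl⟩ := Finset.mem_image.mp hv
    exact Finset.mem_image.mpr ⟨Z i, Finset.mem_image_of_mem _ hZ, (hf (Z i) Z hZ rfl).symm⟩
  exact (Finset.card_le_card hsub).trans Finset.card_image_le

theorem supp_le_V {D : Clu q m} {d : ℕ} (A : Finset (Fin q → Fin n)) {P i : Fin q}
    (hd : (D.mem P).card ≤ d) (hi : i ∈ D.mem P) :
    (supp A i).card ≤ d * (A.image (fun Z => D.cv Z P)).card := by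
  have hsub : supp A i ⊆ (A.image (fun Z => D.cv Z P)).biUnion id := by
    intro x hx
    obtain ⟨Z, hZ, rfl⟩ := Finset.mem_image.mp hx
    refine Finset.mem_biUnion.mpr ⟨D.cv Z P, Finset.mem_image_of_mem _ hZ, ?_⟩
    show Z i ∈ D.cv Z P
    unfold Clu.cv
    exact Finset.mem_image_of_mem _ hi
  refine (Finset.card_le_card hsub).trans ?_
  refine Finset.card_biUnion_le.trans ?_
  calc ∑ v ∈ A.image (fun Z => D.cv Z P), (id v).card
      ≤ ∑ _v ∈ A.image (fun Z => D.cv Z P), d := by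
        refine Finset.sum_le_sum (fun v hv => ?_)
        obtain ⟨Z, _, rfl⟩ := Finset.mem_image.mp hv
        show (D.cv Z P).card ≤ d
        unfold Clu.cv
        exact Finset.card_image_le.trans hd
    _ = d * (A.image (fun Z => D.cv Z P)).card := by
        rw [Finset.sum_const, smul_eq_mul, Nat.mul_comm]

theorem V_point {ℓ : Sym2 (Fin n) → ℕ} {vt : ℕ → Fin (2 * m) → Fin n} {D : Clu q m} {d b : ℕ}
    {A : Finset (Fin q → Fin n)} (hA : ∀ Z ∈ A, CluOK ℓ vt Z D d b)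
    (hS : ∀ Z ∈ A, ∀ Z' ∈ A, ∀ i ∈ D.S, Z i = Z' i) (P : Fin q) (x : Fin n) :
    ((A.image (fun Z => D.cv Z P)).filter (fun v => x ∈ v)).card ≤ d := by
  rcases A.eq_empty_or_nonempty with hA0 | ⟨Z₀, hZ₀⟩
  · subst hA0; simp
  have hsize : (D.mem P).card ≤ d := (hA Z₀ hZ₀).size P
  have hch : ∀ i : Fin q, ∃ v : Finset (Fin n),
      i ∈ D.mem P → ∀ Z ∈ A, Z i = x → D.cv Z P = v := by
    intro i
    by_cases hx : i ∈ D.mem P ∧ ∃ Z ∈ A, Z i = x
    · obtain ⟨hi, Z, hZ, hZx⟩ := hx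
      exact ⟨D.cv Z P, fun _ Z' hZ' hx' =>
        clsaux_det (hA Z' hZ') (hA Z hZ) (hS Z' hZ' Z hZ) hi (hx'.trans hZx.symm)⟩
    · exact ⟨∅, fun hi Z hZ hZx => absurd ⟨hi, Z, hZ, hZx⟩ hx⟩
  choose f hf using hch
  have hsub : (A.image (fun Z => D.cv Z P)).filter (fun v => x ∈ v) ⊆ (D.mem P).image f := by
    intro v hv
    obtain ⟨hv1, hxv⟩ := Finset.mem_filter.mp hv
    obtain ⟨Z, hZ, rfl⟩ := Finset.mem_image.mp hv1
    have hxv' : x ∈ (D.mem P).image Z := by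
      have := hxv
      unfold Clu.cv at this
      exact this
    obtain ⟨i, hi, hix⟩ := Finset.mem_image.mp hxv'
    exact Finset.mem_image.mpr ⟨i, hi, (hf i hi Z hZ hix).symm⟩
  exact (Finset.card_le_card hsub).trans (Finset.card_image_le.trans hsize)

end Pool.Agent.Helper65.CG
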