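import Pool.Agent.Helper65.CG.Defs2

/-! A regular subfamily (module T2 of the upper bound). -/

set_option autoImplicit false

namespace Pool.Agent.Helper65.CG

open scoped Classical
open Pool.Agent.Helper65.CliqueGame

variable {n q m : ℕ}

theorem regaux_lb_nonneg (k : ℕ) : 0 ≤ lb k := by
  unfold lb
  rcases Nat.eq_zero_or_pos k with h | h
  · subst h; simp
  · exact Real.logb_nonneg (by norm_num) (by exact_mod_cast h)

theorem regaux_lb_mono {k l : ℕ} (hk : 1 ≤ k) (h : k ≤ l) : lb k ≤ lb l := by
  unfold lb
  exact Real.logb_le_logb_of_le (by norm_num) (by exact_mod_cast hk) (by exact_mod_cast h)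

theorem regaux_Lg_nonneg (n : ℕ) : 0 ≤ Lg n := regaux_lb_nonneg n

theorem regaux_lb_le_Lg {k : ℕ} (h : k ≤ n) : lb k ≤ Lg n := by
  rcases Nat.eq_zero_or_pos k with h0 | h0
  · subst h0
    have : lb 0 = 0 := by simp [lb]
    rw [this]; exact regaux_Lg_nonneg n
  · exact regaux_lb_mono h0 h

theorem regaux_supp_card_le (A : Finset (Fin q → Fin n)) (i : Fin q) : (supp A i).card ≤ n := by
  have := Finset.card_le_univ (supp A i)
  simpa using this

theorem regaux_supp_nonempty {A : Finset (Fin q → Fin n)} (h : A.Nonempty) (i : Fin q) :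
    (supp A i).Nonempty := h.image _

theorem regaux_supp_mono {A A' : Finset (Fin q → Fin n)} (h : A' ⊆ A) (i : Fin q) :
    supp A' i ⊆ supp A i := Finset.image_subset_image h

theorem exists_reg (A₀ : Finset (Fin q → Fin n)) (h : A₀.Nonempty) {ξ : ℝ} (hξ : 0 ≤ ξ)
    (hn : 1 ≤ n) :
    ∃ A ⊆ A₀, A.Nonempty ∧ RegS A ξ ∧ lb A₀.card - 2 * ξ * q * Lg n ≤ lb A.card := by
  have hL : 0 ≤ Lg n := regaux_Lg_nonneg n
  set J : Finset (Fin q → Fin n) → ℝ := fun A =>
    lb A.card - ξ * ∑ i, (lb (supp A i).card + if 1 < (supp A i).card then Lg n else 0) with hJ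
  have hne : (A₀.powerset.filter (fun A => A.Nonempty)).Nonempty :=
    ⟨A₀, by simp [h]⟩
  obtain ⟨A, hA, hmax⟩ := Finset.exists_max_image _ J hne
  rw [Finset.mem_filter, Finset.mem_powerset] at hA
  obtain ⟨hAA, hA0⟩ := hA
  refine ⟨A, hAA, hA0, ?_, ?_⟩
  · intro A' hA' hA'0
    have hle : J A' ≤ J A :=
      hmax A' (by rw [Finset.mem_filter, Finset.mem_powerset]; exact ⟨hA'.trans hAA, hA'0⟩)
    have hsum : ∑ i, ((lb (supp A i).card - lb (supp A' i).card) +
        if 1 < (supp A i).card ∧ (supp A' i).card = 1 then Lg n else 0) =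
        ∑ i, (lb (supp A i).card + if 1 < (supp A i).card then Lg n else 0) -
        ∑ i, (lb (supp A' i).card + if 1 < (supp A' i).card then Lg n else 0) := by
      rw [← Finset.sum_sub_distrib]
      refine Finset.sum_congr rfl (fun i _ => ?_)
      have h1 : 1 ≤ (supp A' i).card := (regaux_supp_nonempty hA'0 i).card_pos
      have h2 : (supp A' i).card ≤ (supp A i).card :=
        Finset.card_le_card (regaux_supp_mono hA' i)
      by_cases ha : 1 < (supp A i).card
      · by_cases hb : 1 < (supp A' i).card
        · have hb' : ¬ (supp A' i).card = 1 := by omega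
          simp only [ha, hb, hb', and_false, if_true, if_false]
          ring
        · have hb' : (supp A' i).card = 1 := by omega
          have hb2 : ¬ 1 < (supp A' i).card := hb
          rw [if_pos ⟨ha, hb'⟩, if_pos ha, if_neg hb2]
          ring
      · have hb : ¬ 1 < (supp A' i).card := by omega
        have hc : ¬ (1 < (supp A i).card ∧ (supp A' i).card = 1) := fun hh => ha hh.1
        rw [if_neg hc, if_neg ha, if_neg hb]
        ring
    rw [hsum]
    simp only [hJ] at hle
    rw [mul_sub]
    linarith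
  · have hle : J A₀ ≤ J A :=
      hmax A₀ (by rw [Finset.mem_filter, Finset.mem_powerset]; exact ⟨Finset.Subset.refl _, h⟩)
    simp only [hJ] at hle
    have h1 : 0 ≤ ∑ i, (lb (supp A i).card + if 1 < (supp A i).card then Lg n else 0) := by
      refine Finset.sum_nonneg (fun i _ => ?_)
      have := regaux_lb_nonneg (supp A i).card
      split_ifs
      · linarith
      · linarith
    have h2 : ∑ i, (lb (supp A₀ i).card + if 1 < (supp A₀ i).card then Lg n else 0) ≤
        ∑ _i : Fin q, 2 * Lg n := by
      refine Finset.sum_le_sum (fun i _ => ?_)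
      have := regaux_lb_le_Lg (regaux_supp_card_le A₀ i)
      split_ifs
      · linarith
      · linarith
    have h3 : ∑ _i : Fin q, 2 * Lg n = 2 * q * Lg n := by
      rw [Finset.sum_const, Finset.card_univ, Fintype.card_fin, nsmul_eq_mul]
      ring
    have h4 := mul_nonneg hξ h1
    have h5 := mul_le_mul_of_nonneg_left (h2.trans h3.le) hξ
    have h6 : ξ * (2 * q * Lg n) = 2 * ξ * q * Lg n := by ring
    linarith

theorem reg_level {A : Finset (Fin q → Fin n)} {ξ : ℝ} (hξ : 0 ≤ ξ) (hA : A.Nonempty)
    (h : RegS A ξ) {i : Fin q} (hi : i ∈ Fr A) : ξ * Lg n ≤ lb (supp A i).card := by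
  have hL : 0 ≤ Lg n := regaux_Lg_nonneg n
  have hi1 : 1 < (supp A i).card := by
    have := hi
    unfold Fr at this
    exact (Finset.mem_filter.mp this).2
  have hsup0 : 0 < (supp A i).card := by omega
  -- the most popular value
  obtain ⟨v, hv, hvmax⟩ := Finset.exists_max_image (supp A i)
    (fun v => (A.filter (fun Z => Z i = v)).card) (regaux_supp_nonempty hA i)
  set A' := A.filter (fun Z => Z i = v) with hA'
  have hA'0 : A'.Nonempty := by
    obtain ⟨Z, hZ, hZv⟩ := Finset.mem_image.mp hv
    exact ⟨Z, Finset.mem_filter.mpr ⟨hZ, hZv⟩⟩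
  have hcard : A.card ≤ (supp A i).card * A'.card := by
    have h1 : A.card = ∑ w ∈ supp A i, (A.filter (fun Z => Z i = w)).card :=
      Finset.card_eq_sum_card_fiberwise (fun Z hZ => Finset.mem_image_of_mem _ hZ)
    rw [h1]
    calc ∑ w ∈ supp A i, (A.filter (fun Z => Z i = w)).card
        ≤ ∑ _w ∈ supp A i, A'.card := Finset.sum_le_sum (fun w hw => hvmax w hw)
      _ = (supp A i).card * A'.card := by rw [Finset.sum_const, smul_eq_mul]
  have hlb : lb A.card - lb A'.card ≤ lb (supp A i).card := by
    have hA1 : 1 ≤ A.card := hA.card_pos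
    have hA'1 : 1 ≤ A'.card := hA'0.card_pos
    have h1 : lb A.card ≤ lb ((supp A i).card * A'.card) := regaux_lb_mono hA1 hcard
    have h2 : lb ((supp A i).card * A'.card) = lb (supp A i).card + lb A'.card := by
      unfold lb
      rw [Nat.cast_mul, Real.logb_mul]
      · exact_mod_cast (by omega : (supp A i).card ≠ 0)
      · exact_mod_cast (by omega : A'.card ≠ 0)
    linarith
  have hsupp' : supp A' i = {v} := by
    apply Finset.eq_singleton_iff_unique_mem.mpr
    constructor
    · obtain ⟨Z, hZ⟩ := hA'0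
      exact Finset.mem_image.mpr ⟨Z, hZ, (Finset.mem_filter.mp hZ).2⟩
    · intro w hw
      obtain ⟨Z, hZ, hZw⟩ := Finset.mem_image.mp hw
      rw [← hZw]
      exact (Finset.mem_filter.mp hZ).2
  have hsc : (supp A' i).card = 1 := by rw [hsupp', Finset.card_singleton]
  have hreg := h A' (Finset.filter_subset _ _) hA'0
  have hterm : lb (supp A i).card + Lg n ≤
      ∑ j, ((lb (supp A j).card - lb (supp A' j).card) +
      if 1 < (supp A j).card ∧ (supp A' j).card = 1 then Lg n else 0) := by
    have hi2 : (lb (supp A i).card - lb (supp A' i).card) +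
      (if 1 < (supp A i).card ∧ (supp A' i).card = 1 then Lg n else 0) =
        lb (supp A i).card + Lg n := by
      rw [if_pos ⟨hi1, hsc⟩, hsc]
      have : lb 1 = 0 := by simp [lb]
      rw [this]; ring
    rw [← hi2]
    refine Finset.single_le_sum (f := fun j => (lb (supp A j).card - lb (supp A' j).card) +
      if 1 < (supp A j).card ∧ (supp A' j).card = 1 then Lg n else 0) (fun j _ => ?_)
      (Finset.mem_univ i)
    have h1 : lb (supp A' j).card ≤ lb (supp A j).card :=
      regaux_lb_mono (regaux_supp_nonempty hA'0 j).card_pos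
        (Finset.card_le_card (regaux_supp_mono (Finset.filter_subset _ _) j))
    show 0 ≤ (lb (supp A j).card - lb (supp A' j).card) +
      if 1 < (supp A j).card ∧ (supp A' j).card = 1 then Lg n else 0
    split_ifs
    · linarith
    · linarith
  have h3 := mul_le_mul_of_nonneg_left hterm hξ
  have h4 : 0 ≤ ξ * lb (supp A i).card := mul_nonneg hξ (regaux_lb_nonneg _)
  have h5 : ξ * (lb (supp A i).card + Lg n) = ξ * lb (supp A i).card + ξ * Lg n := by ring
  linarith

end Pool.Agent.Helper65.CG
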