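import Pool.Agent.Helper91.UB.Reg
import Pool.Agent.Helper91.UB.ClassVal

/-! Regularity of the class values (module V2 of the upper bound). -/

set_option autoImplicit false

namespace Pool.Agent.Helper65.CG

open scoped Classical
open Pool.Agent.Helper65.CliqueGame

variable {n q m : ℕ}

theorem regcaux_sum {D : Clu q m} {A A' : Finset (Fin q → Fin n)} (hAA : A' ⊆ A)
    (hA'0 : A'.Nonempty) (PP : Finset (Fin q)) (f : Fin q → Fin q)
    (hf : ∀ P ∈ PP, f P ∈ D.mem P) :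
    ∑ P ∈ PP, (lb (supp A (f P)).card - lb (supp A' (f P)).card) ≤
      ∑ i, ((lb (supp A i).card - lb (supp A' i).card) +
      if 1 < (supp A i).card ∧ (supp A' i).card = 1 then Lg n else 0) := by
  have hL : 0 ≤ Lg n := regaux_Lg_nonneg n
  have hmono : ∀ i, lb (supp A' i).card ≤ lb (supp A i).card := fun i =>
    regaux_lb_mono (regaux_supp_nonempty hA'0 i).card_pos
      (Finset.card_le_card (regaux_supp_mono hAA i))
  have hinj : ∀ P ∈ PP, ∀ P' ∈ PP, f P = f P' → P = P' := by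
    intro P hP P' hP' he
    have h1 := (clsaux_mem (hf P hP)).2
    have h2 := (clsaux_mem (hf P' hP')).2
    rw [← h1, ← h2, he]
  calc ∑ P ∈ PP, (lb (supp A (f P)).card - lb (supp A' (f P)).card)
      = ∑ i ∈ PP.image f, (lb (supp A i).card - lb (supp A' i).card) := by
        rw [Finset.sum_image hinj]
    _ ≤ ∑ i, (lb (supp A i).card - lb (supp A' i).card) :=
        Finset.sum_le_sum_of_subset_of_nonneg (Finset.subset_univ _)
          (fun i _ _ => by linarith [hmono i])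
    _ ≤ ∑ i, ((lb (supp A i).card - lb (supp A' i).card) +
      if 1 < (supp A i).card ∧ (supp A' i).card = 1 then Lg n else 0) := by
        refine Finset.sum_le_sum (fun i _ => ?_)
        split_ifs
        · linarith
        · linarith

theorem regcaux_lb_le {k d v : ℕ} (hk : 1 ≤ k) (h : k ≤ d * v) : lb k ≤ lb d + lb v := by
  have h1 : 1 ≤ d * v := hk.trans h
  have hd : d ≠ 0 := by
    rintro rfl
    rw [Nat.zero_mul] at h1
    omega
  have hv : v ≠ 0 := by
    rintro rfl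
    rw [Nat.mul_zero] at h1
    omega
  have h2 : lb k ≤ lb (d * v) := regaux_lb_mono hk h
  have h3 : lb (d * v) = lb d + lb v := by
    unfold lb
    rw [Nat.cast_mul, Real.logb_mul]
    · exact_mod_cast hd
    · exact_mod_cast hv
  linarith

theorem regC_of_regS {ℓ : Sym2 (Fin n) → ℕ} {vt : ℕ → Fin (2 * m) → Fin n} {D : Clu q m}
    {d b : ℕ} {A A' : Finset (Fin q → Fin n)} {ξ η : ℝ} (hξ : 0 ≤ ξ) (hn : 1 ≤ n)
    (hreg : RegS A ξ)
    (hAA : A' ⊆ A) (hA'0 : A'.Nonempty) (hη : lb A.card - lb A'.card ≤ η)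
    (hA : ∀ Z ∈ A', CluOK ℓ vt Z D d b)
    (hS : ∀ Z ∈ A', ∀ Z' ∈ A', ∀ i ∈ D.S, Z i = Z' i) (PP : Finset (Fin q))
    (hPP : ∀ P ∈ PP, (D.mem P).Nonempty) :
    RegC A' (fun Z => D.cv Z) PP (fun P => A'.image (fun Z => D.cv Z P)) ξ
      (η + ξ * q * lb d) := by
  intro A'' hA'' hA''0
  have hch : ∀ P : Fin q, ∃ i : Fin q, P ∈ PP → i ∈ D.mem P := by
    intro P
    by_cases hP : P ∈ PP
    · obtain ⟨i, hi⟩ := hPP P hP
      exact ⟨i, fun _ => hi⟩
    · exact ⟨P, fun h => absurd h hP⟩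
  choose f hf using hch
  obtain ⟨Z₀, hZ₀⟩ := hA'0
  have hsize : ∀ P, (D.mem P).card ≤ d := (hA Z₀ hZ₀).size
  have hsum := regcaux_sum (D := D) (hA''.trans hAA) hA''0 PP f hf
  have hr := hreg A'' (hA''.trans hAA) hA''0
  have hterm : ∑ P ∈ PP, (lb (A'.image (fun Z => D.cv Z P)).card -
      lb (A''.image (fun Z => D.cv Z P)).card) ≤
      ∑ P ∈ PP, (lb (supp A (f P)).card - lb (supp A'' (f P)).card) + ∑ _P ∈ PP, lb d := by
    rw [← Finset.sum_add_distrib]
    refine Finset.sum_le_sum (fun P hP => ?_)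
    have h1 : lb (A'.image (fun Z => D.cv Z P)).card ≤ lb (supp A' (f P)).card :=
      regaux_lb_mono (Finset.Nonempty.card_pos ⟨_, Finset.mem_image_of_mem _ hZ₀⟩)
        (V_le_supp hA hS (hf P hP))
    have h2 : lb (supp A' (f P)).card ≤ lb (supp A (f P)).card :=
      regaux_lb_mono (regaux_supp_nonempty ⟨Z₀, hZ₀⟩ _).card_pos
        (Finset.card_le_card (regaux_supp_mono hAA _))
    have h3 : lb (supp A'' (f P)).card ≤ lb d + lb (A''.image (fun Z => D.cv Z P)).card :=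
      regcaux_lb_le (regaux_supp_nonempty hA''0 _).card_pos
        (supp_le_V A'' (hsize P) (hf P hP))
    linarith
  have hcard : ∑ _P ∈ PP, lb d ≤ q * lb d := by
    rw [Finset.sum_const, nsmul_eq_mul]
    have h1 : PP.card ≤ q := by simpa using Finset.card_le_univ PP
    exact mul_le_mul_of_nonneg_right (by exact_mod_cast h1) (regaux_lb_nonneg d)
  have h5 := mul_le_mul_of_nonneg_left (hterm.trans (add_le_add hsum hcard)) hξ
  have h6 : ξ * (∑ i, ((lb (supp A i).card - lb (supp A'' i).card) +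
      if 1 < (supp A i).card ∧ (supp A'' i).card = 1 then Lg n else 0) + q * lb d) =
      ξ * ∑ i, ((lb (supp A i).card - lb (supp A'' i).card) +
      if 1 < (supp A i).card ∧ (supp A'' i).card = 1 then Lg n else 0) + ξ * q * lb d := by
    ring
  rw [h6] at h5
  show ξ * ∑ P ∈ PP, (lb (A'.image (fun Z => D.cv Z P)).card -
      lb (A''.image (fun Z => D.cv Z P)).card) - (η + ξ * q * lb d) ≤ lb A'.card - lb A''.card
  linarith

theorem low_classes {ℓ : Sym2 (Fin n) → ℕ} {vt : ℕ → Fin (2 * m) → Fin n} {D : Clu q m}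
    {d b : ℕ} {A A' : Finset (Fin q → Fin n)} {ξ η : ℝ} (hξ : 0 ≤ ξ) (hn : 1 ≤ n)
    (hreg : RegS A ξ) (hd : 1 ≤ d)
    (hAA : A' ⊆ A) (hA'0 : A'.Nonempty) (hη : lb A.card - lb A'.card ≤ η)
    (hA : ∀ Z ∈ A', CluOK ℓ vt Z D d b) (hG : D.G ⊆ Fr A) (PL : Finset (Fin q))
    (hPL : ∀ P ∈ PL, (D.mem P).Nonempty ∧
      lb (A'.image (fun Z => D.cv Z P)).card < ξ / 2 * Lg n) :
    ξ * (ξ / 2 * Lg n - lb d) * PL.card ≤ η := by
  have hch : ∀ P : Fin q, ∃ i : Fin q, P ∈ PL → i ∈ D.mem P := by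
    intro P
    by_cases hP : P ∈ PL
    · obtain ⟨i, hi⟩ := (hPL P hP).1
      exact ⟨i, fun _ => hi⟩
    · exact ⟨P, fun h => absurd h hP⟩
  choose f hf using hch
  have hA0 : A.Nonempty := hA'0.mono hAA
  obtain ⟨Z₀, hZ₀⟩ := hA'0
  have hsize : ∀ P, (D.mem P).card ≤ d := (hA Z₀ hZ₀).size
  have hsum := regcaux_sum (D := D) hAA ⟨Z₀, hZ₀⟩ PL f hf
  have hr := hreg A' hAA ⟨Z₀, hZ₀⟩
  have hterm : ∑ _P ∈ PL, (ξ / 2 * Lg n - lb d) ≤
      ∑ P ∈ PL, (lb (supp A (f P)).card - lb (supp A' (f P)).card) := by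
    refine Finset.sum_le_sum (fun P hP => ?_)
    have hfG : f P ∈ Fr A := hG (clsaux_mem (hf P hP)).1
    have h1 : ξ * Lg n ≤ lb (supp A (f P)).card := reg_level hξ hA0 hreg hfG
    have h2 : lb (supp A' (f P)).card ≤ lb d + lb (A'.image (fun Z => D.cv Z P)).card :=
      regcaux_lb_le (regaux_supp_nonempty ⟨Z₀, hZ₀⟩ _).card_pos
        (supp_le_V A' (hsize P) (hf P hP))
    have h3 := (hPL P hP).2
    have h4 : ξ / 2 * Lg n = ξ * Lg n / 2 := by ring
    rw [h4] at h3 ⊢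
    linarith
  have hconst : ∑ _P ∈ PL, (ξ / 2 * Lg n - lb d) = PL.card * (ξ / 2 * Lg n - lb d) := by
    rw [Finset.sum_const, nsmul_eq_mul]
  rw [hconst] at hterm
  have h5 := mul_le_mul_of_nonneg_left (hterm.trans hsum) hξ
  have h6 : ξ * (PL.card * (ξ / 2 * Lg n - lb d)) = ξ * (ξ / 2 * Lg n - lb d) * PL.card := by
    ring
  linarith

end Pool.Agent.Helper65.CG
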